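import Pool.Agent.Y644.JW.Stm

/-!
# Project JW: Balinski's theorem from improving edges
-/

set_option autoImplicit false
set_option linter.all false

namespace Pool.Agent.Y845.JW

open Pool.Agent.Y644.JW Finset Topology

lemma exists_perturbed {d : ℕ} (S : Finset (EuclideanSpace ℝ (Fin d))) (hS : S.Nonempty)
    (c : EuclideanSpace ℝ (Fin d)) :
    ∃ m ∈ S, ∃ g : EuclideanSpace ℝ (Fin d), (∀ v ∈ S, inner ℝ c v ≤ inner ℝ c m) ∧
      (∀ v ∈ S, v ≠ m → inner ℝ g v < inner ℝ g m) ∧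
      (∀ v ∈ S, ∀ w ∈ S, inner ℝ c v < inner ℝ c w → inner ℝ g v < inner ℝ g w) := by
  classical
  obtain ⟨m0, hm0, hmax0⟩ := S.exists_max_image (fun v => inner ℝ c v) hS
  obtain ⟨m, hm, hmax⟩ := (S.filter (fun v => inner ℝ c v = inner ℝ c m0)).exists_max_image
    (fun v => ‖v‖) ⟨m0, mem_filter.2 ⟨hm0, rfl⟩⟩
  obtain ⟨hmS, hmc⟩ := mem_filter.1 hm
  have hev : ∀ᶠ ε in 𝓝[>] (0 : ℝ), ∀ v ∈ S, ∀ w ∈ S, inner ℝ c v < inner ℝ c w →
      inner ℝ (c + ε • m) v < inner ℝ (c + ε • m) w := by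
    rw [Filter.eventually_all_finset]
    intro v _
    rw [Filter.eventually_all_finset]
    intro w _
    by_cases h : inner ℝ c v < inner ℝ c w
    · have hc : Continuous (fun ε : ℝ => inner ℝ (c + ε • m) w - inner ℝ (c + ε • m) v) := by
        fun_prop
      have h1 : 0 < inner ℝ (c + (0 : ℝ) • m) w - inner ℝ (c + (0 : ℝ) • m) v := by
        rw [zero_smul, add_zero]
        linarith
      have h2 := (hc.tendsto 0).eventually (lt_mem_nhds h1)
      refine (h2.filter_mono nhdsWithin_le_nhds).mono fun ε h3 _ => ?_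
      linarith
    · exact Filter.Eventually.of_forall fun ε h' => absurd h' h
  obtain ⟨ε, hε, hε0⟩ := (hev.and self_mem_nhdsWithin).exists
  have hε0' : 0 < ε := hε0
  refine ⟨m, hmS, c + ε • m, fun v hv => ?_, fun v hv hvm => ?_, hε⟩
  · rw [hmc]
    exact hmax0 v hv
  · by_cases h : inner ℝ c v = inner ℝ c m0
    · have h1 := hmax v (mem_filter.2 ⟨hv, h⟩)
      have h2 : inner ℝ m v < inner ℝ m m := by
        have h3 : 0 < ‖m - v‖ ^ 2 := by
          have : m - v ≠ 0 := sub_ne_zero.2 (Ne.symm hvm)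
          positivity
        rw [norm_sub_sq_real] at h3
        rw [real_inner_self_eq_norm_sq]
        have h4 : ‖v‖ ^ 2 ≤ ‖m‖ ^ 2 := by gcongr
        linarith
      rw [inner_add_left, inner_add_left, inner_smul_left, inner_smul_left, h, hmc]
      simp only [conj_trivial]
      have := mul_lt_mul_of_pos_left h2 hε0'
      linarith
    · apply hε v hv m hmS
      rw [hmc]
      exact lt_of_le_of_ne (hmax0 v hv) h

lemma halfspace {d : ℕ} (hI : S_IMP) (S : Finset (EuclideanSpace ℝ (Fin d)))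
    (hext : ∀ s ∈ S, s ∈ Set.extremePoints ℝ (convexHull ℝ (S : Set (EuclideanSpace ℝ (Fin d)))))
    (U : Finset S) (c : EuclideanSpace ℝ (Fin d)) (t : ℝ)
    (hU : ∀ u ∈ U, inner ℝ c (u : EuclideanSpace ℝ (Fin d)) ≤ t)
    (hz : ∃ z : S, t < inner ℝ c (z : EuclideanSpace ℝ (Fin d)))
    (x y : ((U : Set S)ᶜ : Set S))
    (hx : t ≤ inner ℝ c ((x : S) : EuclideanSpace ℝ (Fin d)))
    (hy : t ≤ inner ℝ c ((y : S) : EuclideanSpace ℝ (Fin d))) :
    ((pg S).induce ((U : Set S)ᶜ)).Reachable x y := by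
  classical
  obtain ⟨z, hz⟩ := hz
  obtain ⟨m, hmS, g, hm1, hm2, hm3⟩ := exists_perturbed S ⟨z, z.2⟩ c
  have hout : ∀ w : S, t < inner ℝ c (w : EuclideanSpace ℝ (Fin d)) →
      w ∈ ((U : Set S)ᶜ : Set S) := by
    intro w hw hwU
    exact absurd (hU w (mem_coe.1 hwU)) (not_le.2 hw)
  have hmt : t < inner ℝ c m := lt_of_lt_of_le hz (hm1 z z.2)
  set mm : ((U : Set S)ᶜ : Set S) := ⟨⟨m, hmS⟩, hout ⟨m, hmS⟩ hmt⟩ with hmm
  -- strictly positive vertices reach m
  have hpos : ∀ v : ((U : Set S)ᶜ : Set S), t < inner ℝ c ((v : S) : EuclideanSpace ℝ (Fin d)) →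
      ((pg S).induce ((U : Set S)ᶜ)).Reachable v mm := by
    by_contra hcon
    push Not at hcon
    obtain ⟨v0, hv0, hv0'⟩ := hcon
    obtain ⟨v, hv, hvmax⟩ := Set.exists_max_image
      {v : ((U : Set S)ᶜ : Set S) | t < inner ℝ c ((v : S) : EuclideanSpace ℝ (Fin d)) ∧
        ¬ ((pg S).induce ((U : Set S)ᶜ)).Reachable v mm}
      (fun v => inner ℝ g ((v : S) : EuclideanSpace ℝ (Fin d))) (Set.toFinite _)
      ⟨v0, hv0, hv0'⟩
    obtain ⟨hvt, hvr⟩ := hv
    have hvm : ((v : S) : EuclideanSpace ℝ (Fin d)) ≠ m := by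
      intro h
      apply hvr
      have : v = mm := Subtype.ext (Subtype.ext h)
      rw [this]
    have hlt := hm2 _ (v : S).2 hvm
    obtain ⟨w, hw, hgw⟩ := hI d S hext g v ⟨m, hmS⟩ hlt
    have hcw : inner ℝ c ((v : S) : EuclideanSpace ℝ (Fin d)) ≤ inner ℝ c (w : EuclideanSpace ℝ (Fin d)) := by
      by_contra h
      rw [not_le] at h
      have := hm3 _ w.2 _ (v : S).2 h
      linarith
    have hwt := lt_of_lt_of_le hvt hcw
    have hadj : ((pg S).induce ((U : Set S)ᶜ)).Adj v ⟨w, hout w hwt⟩ := hw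
    by_cases hwr : ((pg S).induce ((U : Set S)ᶜ)).Reachable ⟨w, hout w hwt⟩ mm
    · exact hvr (hadj.reachable.trans hwr)
    · have h9 : inner ℝ g ((w : S) : EuclideanSpace ℝ (Fin d)) ≤
          inner ℝ g ((v : S) : EuclideanSpace ℝ (Fin d)) := hvmax ⟨w, hout w hwt⟩ ⟨hwt, hwr⟩
      linarith
  have hall : ∀ v : ((U : Set S)ᶜ : Set S), t ≤ inner ℝ c ((v : S) : EuclideanSpace ℝ (Fin d)) →
      ((pg S).induce ((U : Set S)ᶜ)).Reachable v mm := by
    intro v hv
    rcases hv.lt_or_eq with h | h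
    · exact hpos v h
    · have hlt : inner ℝ c ((v : S) : EuclideanSpace ℝ (Fin d)) < inner ℝ c ((⟨m, hmS⟩ : S) : EuclideanSpace ℝ (Fin d)) := by
        rw [← h]
        exact hmt
      obtain ⟨w, hw, hgw⟩ := hI d S hext c v ⟨m, hmS⟩ hlt
      rw [← h] at hgw
      have hadj : ((pg S).induce ((U : Set S)ᶜ)).Adj v ⟨w, hout w hgw⟩ := hw
      exact hadj.reachable.trans (hpos _ hgw)
  exact (hall x hx).trans (hall y hy).symm

theorem bal (hI : S_IMP) : S_BAL := by
  classical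
  intro d S hint hext U hU x y
  -- the hyperplane
  obtain ⟨c, hc0, hc⟩ : ∃ c : EuclideanSpace ℝ (Fin d), c ≠ 0 ∧ ∀ u ∈ U,
      inner ℝ c ((u : EuclideanSpace ℝ (Fin d)) - ((x : S) : EuclideanSpace ℝ (Fin d))) = 0 := by
    set B : Finset (EuclideanSpace ℝ (Fin d)) := U.image
      (fun u : S => (u : EuclideanSpace ℝ (Fin d)) - ((x : S) : EuclideanSpace ℝ (Fin d))) with hB
    have h1 : Module.finrank ℝ (Submodule.span ℝ (B : Set (EuclideanSpace ℝ (Fin d)))) < d :=
      lt_of_le_of_lt (finrank_span_finset_le_card B) (lt_of_le_of_lt card_image_le hU)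
    have h2 : (Submodule.span ℝ (B : Set (EuclideanSpace ℝ (Fin d))))ᗮ ≠ ⊥ := by
      intro h
      rw [Submodule.orthogonal_eq_bot_iff] at h
      rw [h, finrank_top, finrank_euclideanSpace_fin] at h1
      exact lt_irrefl _ h1
    obtain ⟨c, hc, hc0⟩ := Submodule.exists_mem_ne_zero_of_ne_bot h2
    refine ⟨c, hc0, fun u hu => ?_⟩
    rw [Submodule.mem_orthogonal'] at hc
    exact hc _ (Submodule.subset_span (mem_coe.2 (mem_image_of_mem _ hu)))
  set t : ℝ := inner ℝ c ((x : S) : EuclideanSpace ℝ (Fin d)) with ht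
  have hcU : ∀ u ∈ U, inner ℝ c (u : EuclideanSpace ℝ (Fin d)) = t := by
    intro u hu
    have := hc u hu
    rw [inner_sub_right] at this
    linarith
  -- not constant
  have hnc : ∃ z : S, inner ℝ c (z : EuclideanSpace ℝ (Fin d)) ≠ t := by
    by_contra hcon
    push Not at hcon
    have hsub : convexHull ℝ (S : Set (EuclideanSpace ℝ (Fin d))) ⊆
        {p | inner ℝ c p = t} := by
      refine convexHull_min (fun s hs => hcon ⟨s, hs⟩) ?_
      exact convex_hyperplane (IsLinearMap.mk (fun p q => inner_add_right c p q)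
        (fun a p => by rw [inner_smul_right]; rfl)) t
    obtain ⟨p, hp⟩ := hint
    have hp' := mem_interior_iff_mem_nhds.1 hp
    have hcont : Continuous (fun δ : ℝ => p + δ • c) := by fun_prop
    have h1 : ∀ᶠ δ in 𝓝[>] (0 : ℝ), p + δ • c ∈
        convexHull ℝ (S : Set (EuclideanSpace ℝ (Fin d))) := by
      refine Filter.Eventually.filter_mono nhdsWithin_le_nhds ?_
      apply hcont.continuousAt.eventually
      simpa using hp'
    obtain ⟨δ, hδ, hδ0⟩ := (h1.and self_mem_nhdsWithin).exists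
    have hδ0' : 0 < δ := hδ0
    have h2 : inner ℝ c (p + δ • c) = t := hsub hδ
    have h3 : inner ℝ c p = t := hsub (interior_subset hp)
    rw [inner_add_right, inner_smul_right, h3, real_inner_self_eq_norm_sq] at h2
    have h4 : 0 < δ * ‖c‖ ^ 2 := by
      have : 0 < ‖c‖ := norm_pos_iff.2 hc0
      positivity
    linarith
  have hneg : ∀ v : EuclideanSpace ℝ (Fin d), inner ℝ (-c) v = - inner ℝ c v :=
    fun v => inner_neg_left c v
  have hA : t ≤ inner ℝ c ((y : S) : EuclideanSpace ℝ (Fin d)) →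
      (∃ z : S, t < inner ℝ c (z : EuclideanSpace ℝ (Fin d))) →
      ((pg S).induce ((U : Set S)ᶜ)).Reachable x y := fun h1 h2 =>
    halfspace hI S hext U c t (fun u hu => (hcU u hu).le) h2 x y le_rfl h1
  have hB : inner ℝ c ((y : S) : EuclideanSpace ℝ (Fin d)) ≤ t →
      (∃ z : S, inner ℝ c (z : EuclideanSpace ℝ (Fin d)) < t) →
      ((pg S).induce ((U : Set S)ᶜ)).Reachable x y := by
    rintro h1 ⟨z, hz⟩
    refine halfspace hI S hext U (-c) (-t) (fun u hu => ?_) ⟨z, ?_⟩ x y ?_ ?_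
    · rw [hneg, hcU u hu]
    · rw [hneg]
      linarith
    · rw [hneg]
    · rw [hneg]
      linarith
  obtain ⟨z, hz⟩ := hnc
  rcases lt_trichotomy (inner ℝ c ((y : S) : EuclideanSpace ℝ (Fin d))) t with h | h | h
  · exact hB h.le ⟨y, h⟩
  · rcases lt_or_gt_of_ne hz with h' | h'
    · exact hB h.le ⟨z, h'⟩
    · exact hA h.ge ⟨z, h'⟩
  · exact hA h.le ⟨y, h⟩

end Pool.Agent.Y845.JW
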