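import Pool.Agent.Y644.JW.Stm

/-!
# Project JW: `d`-regular `d`-connected graphs are 1-tough
-/

set_option autoImplicit false
set_option linter.all false

namespace Pool.Agent.Y845.JW

open Pool.Agent.Y644.JW Finset

theorem tou : S_TOU := by
  classical
  intro V _ G d hd hreg hconn S hS
  set H := G.induce ((S : Set V)ᶜ) with hH
  haveI : Fintype H.ConnectedComponent := Fintype.ofFinite _
  have hom : om G S = Fintype.card H.ConnectedComponent := Nat.card_eq_fintype_card
  -- the relation s has a neighbour in C
  set r : V → H.ConnectedComponent → Prop := fun s C =>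
    ∃ v : ((S : Set V)ᶜ : Set V), H.connectedComponentMk v = C ∧ G.Adj s v with hr
  have hN : ∀ C : H.ConnectedComponent, d ≤ (S.filter (fun s => r s C)).card := by
    intro C
    by_contra hlt
    rw [not_le] at hlt
    have hpre := hconn (S.filter (fun s => r s C)) hlt
    set U := S.filter (fun s => r s C) with hU
    -- another component
    have h2 : 1 < Fintype.card H.ConnectedComponent := by omega
    obtain ⟨C', hC'⟩ := Fintype.exists_ne_of_one_lt_card h2 C
    obtain ⟨v0, hv0⟩ := C.exists_rep
    obtain ⟨v1, hv1⟩ := C'.exists_rep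
    have hUS : ∀ x ∉ S, x ∈ ((U : Set V)ᶜ : Set V) := by
      intro x hx hxU
      exact hx (mem_of_mem_filter x (mem_coe.1 hxU))
    have h0 : (v0 : V) ∈ ((U : Set V)ᶜ : Set V) := hUS _ (fun h => v0.2 (mem_coe.2 h))
    have h1 : (v1 : V) ∈ ((U : Set V)ᶜ : Set V) := hUS _ (fun h => v1.2 (mem_coe.2 h))
    have hreach := hpre ⟨v0, h0⟩ ⟨v1, h1⟩
    rw [SimpleGraph.reachable_iff_reflTransGen] at hreach
    have key : ∀ y : ((U : Set V)ᶜ : Set V),
        Relation.ReflTransGen (G.induce ((U : Set V)ᶜ)).Adj ⟨v0, h0⟩ y →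
        ∃ hy : (y : V) ∈ ((S : Set V)ᶜ : Set V), H.connectedComponentMk ⟨y, hy⟩ = C := by
      intro y hy
      induction hy with
      | refl => exact ⟨v0.2, hv0⟩
      | @tail x y _ hxy ih =>
        obtain ⟨hx, hxC⟩ := ih
        have hadj : G.Adj x y := hxy
        have hyS : (y : V) ∉ S := by
          intro h
          apply y.2
          exact mem_coe.2 (mem_filter.2 ⟨h, ⟨x, hx⟩, hxC, hadj.symm⟩)
        refine ⟨fun h => hyS (mem_coe.1 h), ?_⟩
        rw [← hxC]
        apply SimpleGraph.ConnectedComponent.sound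
        apply SimpleGraph.Adj.reachable
        exact hadj.symm
    obtain ⟨hy, hyC⟩ := key _ hreach
    apply hC'
    rw [← hv1, ← hyC]
    rfl
  have hD : ∀ s ∈ S, (univ.filter (fun C : H.ConnectedComponent => r s C)).card ≤ d := by
    intro s _
    rw [← hreg s, dg, ← Nat.card_coe_set_eq, ← Fintype.card_subtype, ← Nat.card_eq_fintype_card]
    refine Nat.card_le_card_of_injective
      (fun C : {C : H.ConnectedComponent // r s C} =>
        (⟨(C.2.choose : V), C.2.choose_spec.2⟩ : G.neighborSet s)) ?_
    intro C C' h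
    have h1 : (C.2.choose : V) = C'.2.choose := by
      simpa using congrArg Subtype.val h
    have h2 : C.2.choose = C'.2.choose := Subtype.ext h1
    apply Subtype.ext
    rw [← C.2.choose_spec.1, ← C'.2.choose_spec.1, h2]
  have h1 : ∑ C : H.ConnectedComponent, (S.filter (fun s => r s C)).card =
      ∑ s ∈ S, (univ.filter (fun C : H.ConnectedComponent => r s C)).card :=
    (Finset.sum_card_bipartiteAbove_eq_sum_card_bipartiteBelow (s := S)
      (t := (univ : Finset H.ConnectedComponent)) r).symm
  have h2 : Fintype.card H.ConnectedComponent * d ≤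
      ∑ C : H.ConnectedComponent, (S.filter (fun s => r s C)).card := by
    rw [← Finset.card_univ, ← smul_eq_mul]
    exact Finset.card_nsmul_le_sum _ _ _ (fun C _ => hN C)
  have h3 : ∑ s ∈ S, (univ.filter (fun C : H.ConnectedComponent => r s C)).card ≤ S.card * d := by
    rw [← smul_eq_mul]
    exact Finset.sum_le_card_nsmul _ _ _ hD
  rw [hom]
  refine Nat.le_of_mul_le_mul_right ?_ hd
  omega

end Pool.Agent.Y845.JW
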